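import Pool.Agent.R864.MarkovTop

/-!
MP_ff84c4_al, Q1: the statement is false, already for countable groups.
-/

namespace Pool.Agent.Results.MP_ff84c4_al.MarkovNeCentralizer

open Pool.Agent.R864.MT

theorem result : ∃ (G : Type) (_ : Group G), Countable G ∧ Subgroup.center G = ⊥ ∧
    (∀ F : Set G, F.Finite → (Set.centralizer (Set.centralizer F)).Finite) ∧
    markovTopology G ≠ centralizerTopology G :=
  ⟨Gp, inferInstance, inferInstance, center_bot, finite_double, markov_ne⟩

end Pool.Agent.Results.MP_ff84c4_al.MarkovNeCentralizer
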